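import Pool.Agent.H40CS.Hadamard

namespace Pool.Agent.Results.MP_56f651_co.AlmostAllModuli

open Finset Filter Pool.Agent.H40CS

/-- There is a cyclic Hadamard difference set modulo `v`: a set `D` of `2 t - 1` residues modulo
`v = 4 t - 1` such that every nonzero residue has exactly `t - 1` representations `d - d'` with
`d, d'` in `D`, for some `t ≥ 1`. -/
def HasCyclicHadamard (v : ℕ) : Prop :=
  ∃ (t : ℕ) (D : Finset (ZMod v)), 1 ≤ t ∧ v = 4 * t - 1 ∧ D.card = 2 * t - 1 ∧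
    ∀ x : ZMod v, x ≠ 0 → ((D ×ˢ D).filter (fun p => p.1 - p.2 = x)).card = t - 1

/-- **Almost no modulus carries a cyclic Hadamard difference set.** The `v` for which there is a
cyclic `(4 t - 1, 2 t - 1, t - 1)` difference set modulo `v` have natural density zero. -/
theorem result :
    Tendsto (fun X : ℕ => ({v : ℕ | v < X ∧ HasCyclicHadamard v}.ncard : ℝ) / X) atTop
      (nhds 0) := by
  apply tendsto_of_DZ
  intro ε hε
  obtain ⟨X₀, hX₀⟩ := DZ_HasDS ε hε
  refine ⟨X₀, fun X hX => le_trans ?_ (hX₀ X hX)⟩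
  apply Nat.cast_le.2
  apply Set.ncard_le_ncard_of_injOn (fun v => (v + 1) / 4 - 1) ?_ ?_ (fin_lt _ X)
  · rintro v ⟨hv, t, D, ht, rfl, hDc, hD⟩
    obtain ⟨s, rfl⟩ : ∃ s, t = s + 1 := ⟨t - 1, by omega⟩
    have hs : (4 * (s + 1) - 1 + 1) / 4 - 1 = s := by omega
    rw [hs]
    refine ⟨by omega, ?_⟩
    have e : 4 * (s + 1) - 1 = 4 * s + 3 := by omega
    unfold HasDS
    rw [← e]
    refine ⟨D, by omega, ?_⟩
    intro x hx
    rw [hD x hx]
    omega
  · rintro v ⟨hv, t, D, ht, hvt, _⟩ v' ⟨hv', t', D', ht', hvt', _⟩ h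
    simp only at h
    omega

end Pool.Agent.Results.MP_56f651_co.AlmostAllModuli
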